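import Pool.Agent.H18.AB.Base
import Pool.Agent.H13.PS.LP2

/-! # CLJ, part 0: dyadic sums, radicals -/

set_option autoImplicit false

open Pool.Agent.H38.RB Pool.Agent.H38.PS Pool.Agent.H82.RD Pool.Agent.H38.AB

namespace Pool.Agent.H19.AB

/-- dyadic summation -/
theorem clj_dyadic {n : ℕ} (hn : 1 ≤ n) (P : Finset (ℕ × ℕ))
    (hP : ∀ t ∈ P, (1 ≤ t.1 ∧ t.1 ≤ n) ∧ 1 ≤ t.2 ∧ t.2 ≤ n) {K κ : ℝ} (hK : 0 ≤ K)
    (hκ0 : 0 ≤ κ) (hκ1 : κ ≤ 1)
    (h : ∀ U V : ℕ, 1 ≤ U → U ≤ n → 1 ≤ V → V ≤ n →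
      ((P.filter fun t => t.1 ≤ U ∧ t.2 ≤ V).card : ℝ) ≤ K * ((U : ℝ) * V) ^ κ) :
    ∑ t ∈ P, 1 / ((t.1 : ℝ) * t.2) ^ κ ≤ ((Nat.log 2 n : ℝ) + 1) ^ 2 * (4 * K) := by
  classical
  rw [← Finset.sum_fiberwise_of_maps_to (s := P)
    (t := Finset.range (Nat.log 2 n + 1) ×ˢ Finset.range (Nat.log 2 n + 1))
    (g := fun t => (Nat.log 2 t.1, Nat.log 2 t.2)) (by
      intro t ht
      obtain ⟨⟨-, h1⟩, -, h2⟩ := hP t ht
      rw [Finset.mem_product, Finset.mem_range, Finset.mem_range]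
      have e1 : Nat.log 2 t.1 ≤ Nat.log 2 n := Nat.log_mono_right h1
      have e2 : Nat.log 2 t.2 ≤ Nat.log 2 n := Nat.log_mono_right h2
      exact ⟨Nat.lt_succ_of_le e1, Nat.lt_succ_of_le e2⟩)]
  have key : ∀ ij ∈ Finset.range (Nat.log 2 n + 1) ×ˢ Finset.range (Nat.log 2 n + 1),
      ∑ t ∈ P with (Nat.log 2 t.1, Nat.log 2 t.2) = ij, 1 / ((t.1 : ℝ) * t.2) ^ κ ≤ 4 * K := by
    rintro ⟨i, j⟩ -
    obtain ⟨U, hU⟩ : ∃ U, U = min (2 ^ (i + 1)) n := ⟨_, rfl⟩
    obtain ⟨W, hW⟩ : ∃ W, W = min (2 ^ (j + 1)) n := ⟨_, rfl⟩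
    have hU1 : 1 ≤ U := by rw [hU]; exact le_min Nat.one_le_two_pow hn
    have hW1 : 1 ≤ W := by rw [hW]; exact le_min Nat.one_le_two_pow hn
    have h1 := h U W hU1 (by rw [hU]; exact min_le_right _ _) hW1
      (by rw [hW]; exact min_le_right _ _)
    obtain ⟨q, hq⟩ : ∃ q : ℝ, q = (2 : ℝ) ^ i * 2 ^ j := ⟨_, rfl⟩
    have hq0 : 0 < q := by rw [hq]; positivity
    have hqκ : 0 < q ^ κ := Real.rpow_pos_of_pos hq0 _
    have h2 : ∀ t ∈ P.filter (fun t => (Nat.log 2 t.1, Nat.log 2 t.2) = (i, j)),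
        1 / ((t.1 : ℝ) * t.2) ^ κ ≤ 1 / q ^ κ := by
      intro t ht
      rw [Finset.mem_filter, Prod.mk.injEq] at ht
      obtain ⟨ht, e1, e2⟩ := ht
      obtain ⟨⟨h3, -⟩, h4, -⟩ := hP t ht
      refine one_div_le_one_div_of_le hqκ (Real.rpow_le_rpow hq0.le ?_ hκ0)
      rw [hq]
      have h5 : 2 ^ i ≤ t.1 := by
        rw [← e1]
        exact Nat.pow_log_le_self 2 (by omega)
      have h6 : 2 ^ j ≤ t.2 := by
        rw [← e2]
        exact Nat.pow_log_le_self 2 (by omega)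
      have h5' : (2 : ℝ) ^ i ≤ t.1 := by exact_mod_cast h5
      have h6' : (2 : ℝ) ^ j ≤ t.2 := by exact_mod_cast h6
      exact mul_le_mul h5' h6' (by positivity) (by positivity)
    refine (Finset.sum_le_sum h2).trans ?_
    rw [Finset.sum_const, nsmul_eq_mul]
    have h3 : ((P.filter (fun t => (Nat.log 2 t.1, Nat.log 2 t.2) = (i, j))).card : ℝ) ≤
        K * (4 * q ^ κ) := by
      refine le_trans ?_ (h1.trans ?_)
      · refine Nat.cast_le.2 (Finset.card_le_card fun t ht => ?_)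
        rw [Finset.mem_filter, Prod.mk.injEq] at ht
        obtain ⟨ht, e1, e2⟩ := ht
        obtain ⟨⟨h3, h3'⟩, h4, h4'⟩ := hP t ht
        rw [Finset.mem_filter]
        refine ⟨ht, ?_, ?_⟩
        · rw [hU]
          refine le_min ?_ h3'
          rw [← e1]
          exact (Nat.lt_pow_succ_log_self one_lt_two _).le
        · rw [hW]
          refine le_min ?_ h4'
          rw [← e2]
          exact (Nat.lt_pow_succ_log_self one_lt_two _).le
      · refine mul_le_mul_of_nonneg_left ?_ hK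
        have h5 : ((U : ℝ) * W) ≤ 4 * q := by
          have h6 : (U : ℝ) ≤ 2 ^ (i + 1) := by
            have : U ≤ 2 ^ (i + 1) := by rw [hU]; exact min_le_left _ _
            exact_mod_cast this
          have h7 : (W : ℝ) ≤ 2 ^ (j + 1) := by
            have : W ≤ 2 ^ (j + 1) := by rw [hW]; exact min_le_left _ _
            exact_mod_cast this
          calc (U : ℝ) * W ≤ 2 ^ (i + 1) * 2 ^ (j + 1) :=
                mul_le_mul h6 h7 (by positivity) (by positivity)
            _ = 4 * q := by rw [hq]; ring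
        calc ((U : ℝ) * W) ^ κ ≤ (4 * q) ^ κ := Real.rpow_le_rpow (by positivity) h5 hκ0
          _ = 4 ^ κ * q ^ κ := Real.mul_rpow (by norm_num) hq0.le
          _ ≤ 4 * q ^ κ := by
            refine mul_le_mul_of_nonneg_right ?_ hqκ.le
            calc (4 : ℝ) ^ κ ≤ 4 ^ (1 : ℝ) :=
                  Real.rpow_le_rpow_of_exponent_le (by norm_num) hκ1
              _ = 4 := Real.rpow_one _
    calc _ ≤ K * (4 * q ^ κ) * (1 / q ^ κ) :=
          mul_le_mul_of_nonneg_right h3 (by positivity)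
      _ = 4 * K := by field_simp
  refine (Finset.sum_le_sum key).trans ?_
  rw [Finset.sum_const, Finset.card_product, Finset.card_range, nsmul_eq_mul]
  push_cast
  rw [pow_two]

/-- the radical of a number with a given prime factor -/
theorem clj_pd {m p : ℕ} (hp : p.Prime) (hm : m ≠ 0) (hpm : p ∣ m) :
    pd m.primeFactors = p * pd (m / p ^ m.factorization p).primeFactors := by
  have h1 : (m / p ^ m.factorization p).primeFactors = m.primeFactors.erase p := by
    rw [← Nat.support_factorization, ← Nat.support_factorization,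
      show (m / p ^ m.factorization p).factorization = m.factorization.erase p from
        Nat.factorization_ordCompl m p, Finsupp.support_erase]
  rw [h1]
  unfold pd
  exact (Finset.mul_prod_erase _ _ (Nat.mem_primeFactors.2 ⟨hp, hpm, hm⟩)).symm

theorem clj_pd_prod {x : Fin 3 → ℤ} (hx : Adm x) {a b c : Fin 3} (hab : a ≠ b) (hac : a ≠ c)
    (hbc : b ≠ c) : pd (pr x).primeFactors =
      pd (x a).natAbs.primeFactors * pd (x b).natAbs.primeFactors *
        pd (x c).natAbs.primeFactors := by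
  rw [Pool.Agent.H13.PS.pf_perm hx hab hac hbc]
  have d1 : Disjoint (x a).natAbs.primeFactors (x b).natAbs.primeFactors :=
    (Pool.Agent.H13.PS.adm_cop hx hab).disjoint_primeFactors
  have d2 : Disjoint (x a).natAbs.primeFactors (x c).natAbs.primeFactors :=
    (Pool.Agent.H13.PS.adm_cop hx hac).disjoint_primeFactors
  have d3 : Disjoint (x b).natAbs.primeFactors (x c).natAbs.primeFactors :=
    (Pool.Agent.H13.PS.adm_cop hx hbc).disjoint_primeFactors
  unfold pd
  rw [Finset.prod_union (Finset.disjoint_union_left.2 ⟨d2, d3⟩), Finset.prod_union d1]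

/-- splitting of an entry -/
theorem clj_split {X : ℝ} {Ω V : ℕ} (hNSU : T_NSU) (hX : 2 ≤ X) {x : Fin 3 → ℤ}
    (hx : x ∈ Fw X Ω V) (a : Fin 3) {p : ℕ} (hp : p.Prime)
    (h0 : 0 < (x a).natAbs.factorization p) :
    (x a).natAbs / p ^ (x a).natAbs.factorization p ∈ Nf X Ω V ∧
      (x a).natAbs / p ^ (x a).natAbs.factorization p * p ^ (x a).natAbs.factorization p =
        (x a).natAbs ∧ (x a).natAbs.factorization p ≤ V ∧ p ≤ ⌊X⌋₊ ∧
      pd (x a).natAbs.primeFactors =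
        p * pd ((x a).natAbs / p ^ (x a).natAbs.factorization p).primeFactors := by
  have hA := hx.1
  have hm := Pool.Agent.H13.PS.adm_ne hA a
  have hpm : p ∣ (x a).natAbs := Nat.dvd_of_factorization_pos h0.ne'
  have hd : (x a).natAbs / p ^ (x a).natAbs.factorization p ∣ (x a).natAbs :=
    Nat.ordCompl_dvd _ _
  refine ⟨Pool.Agent.H18.AB.mem_Nf hNSU hX hx (hd.trans (Pool.Agent.H18.AB.dvd_pr x a)), ?_, ?_,
    ?_, clj_pd hp hm hpm⟩
  · exact Nat.div_mul_cancel (Nat.ordProj_dvd _ _)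
  · exact ((Nat.factorization_le_iff_dvd hm (Pool.Agent.H18.AB.pr_ne hA)).2
      (Pool.Agent.H18.AB.dvd_pr x a) p).trans (hx.2.2.2 p)
  · refine Nat.le_floor (le_trans ?_ hx.2.1)
    have h1 : p ∈ (pr x).primeFactors := Nat.mem_primeFactors.2
      ⟨hp, hpm.trans (Pool.Agent.H18.AB.dvd_pr x a), Pool.Agent.H18.AB.pr_ne hA⟩
    have h2 : p ≤ pd (pr x).primeFactors := by
      unfold pd
      exact Finset.single_le_prod' (f := fun q : ℕ => q)
        (fun q hq => (Nat.prime_of_mem_primeFactors hq).one_lt.le) h1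
    exact_mod_cast h2

/-- the size of the elements of `Nf` -/
theorem clj_log {X : ℝ} {Ω V : ℕ} (hX : 2 ≤ X) {m : ℕ} (hm : m ∈ Nf X Ω V) :
    m ≠ 0 ∧ Real.log m ≤ Lo 1 X Ω V := by
  classical
  have h0 := (Finset.mem_Icc.1 (Finset.mem_filter.1 hm).1)
  refine ⟨by have := h0.1; omega, ?_⟩
  have hb := Pool.Agent.H18.AB.base_ge V hX
  have hlog : 0 ≤ Real.log X := Real.log_nonneg (by linarith)
  have h1 : Real.log m ≤ V * Real.log X := by
    rw [← Real.log_pow]
    refine Real.log_le_log (by have := h0.1; positivity) ?_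
    have h2 : (m : ℝ) ≤ ((⌊X⌋₊ ^ V : ℕ) : ℝ) := by exact_mod_cast h0.2
    refine h2.trans ?_
    push_cast
    exact pow_le_pow_left₀ (Nat.cast_nonneg _) (Nat.floor_le (by linarith)) _
  have hV : (0 : ℝ) ≤ V := Nat.cast_nonneg _
  have h2 : V * Real.log X ≤ ((V : ℝ) + 2) * (4 * Real.log X + 4) := by nlinarith
  refine h1.trans (h2.trans ?_)
  unfold Lo
  calc ((V : ℝ) + 2) * (4 * Real.log X + 4) = (((V : ℝ) + 2) * (4 * Real.log X + 4)) ^ 1 :=
        (pow_one _).symm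
    _ ≤ _ := pow_le_pow_right₀ (by linarith) (by omega)

end Pool.Agent.H19.AB
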