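import Pool.Agent.H38.AB.Targets

/-! # ENM: energy of a pattern modulo `g` -/

set_option autoImplicit false

open Pool.Agent.H38.RB Pool.Agent.H38.PS Pool.Agent.H82.RD Pool.Agent.H38.AB
open Pool.Agent.H23.AF (En)

namespace Pool.Agent.H19.AB

/-- the number of variables of the moments -/
theorem enm_ceil {S s : ℕ} (hs : 1 ≤ s) (hS : s ≤ S) :
    S ≤ s * ((S + s - 1) / s) ∧ 1 ≤ (S + s - 1) / s ∧ (S + s - 1) / s ≤ S ∧
      (s + 1) * ((S + s - 1) / s) ≤ 3 * S + 1 := by
  obtain ⟨n, hn⟩ : ∃ n, n = (S + s - 1) / s := ⟨_, rfl⟩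
  have h1 := Nat.div_add_mod (S + s - 1) s
  have h2 := Nat.mod_lt (S + s - 1) (show s > 0 by omega)
  rw [← hn] at h1 ⊢
  have h3 : S ≤ s * n := by omega
  have h4 : s * n ≤ S + s - 1 := by omega
  have h5 : 1 ≤ n := by
    rcases Nat.eq_zero_or_pos n with h | h
    · rw [h] at h3
      omega
    · exact h
  have h6 : n ≤ S := by
    by_contra hcon
    push Not at hcon
    have h7 : s * (S + 1) ≤ s * n := Nat.mul_le_mul_left _ hcon
    have h8 : S * 1 ≤ S * s := Nat.mul_le_mul_left _ hs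
    have h9 : s * (S + 1) = S * s + s := by ring
    omega
  refine ⟨h3, h5, h6, ?_⟩
  have h7 : (s + 1) * n = s * n + n := by ring
  omega

theorem pf_ENM (hEG : T_EG) (hTOR : T_TOR) (hMOM : T_MOM) : T_ENM := by
  classical
  intro k V S g _ v s hv hS hg
  obtain ⟨f, hf⟩ : ∃ f : Fin k → ℕ → (ZMod g)ˣ, f = fun j p =>
      if h : p.Coprime g then ZMod.unitOfCoprime p h ^ v j else 1 := ⟨_, rfl⟩
  have hfv : ∀ j (p : ℕ), p.Coprime g → ((f j p : (ZMod g)ˣ) : ZMod g) = (p : ZMod g) ^ v j := by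
    intro j p hp
    rw [hf]
    simp only
    rw [dif_pos hp, Units.val_pow_eq_pow_val, ZMod.coe_unitOfCoprime]
  have hsS : ∀ j, s j ≤ S := by
    intro j
    rw [hS]
    exact Finset.single_le_sum (f := s) (fun _ _ => Nat.zero_le _) (Finset.mem_univ j)
  have h1 := hEG (ZMod g)ˣ k S (fun j => Dy g (s j)) f s (fun j => (S + s j - 1) / s j)
    ((2 * (V : ℝ) + 2) ^ g.primeFactors.card)
    (one_le_pow₀ (by have : (0 : ℝ) ≤ V := Nat.cast_nonneg _; linarith))
    (fun j => (hv j).2.2) hS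
    (fun j => by
      obtain ⟨a, b, c, d⟩ := enm_ceil (hv j).2.2 (hsS j)
      exact ⟨a, b, c⟩)
    (fun j => by
      obtain ⟨a, b, c, d⟩ := enm_ceil (hv j).2.2 (hsS j)
      have h2 := hMOM g (v j) (s j) ((S + s j - 1) / s j) (f j) (hv j).1
        ((Nat.pow_le_pow_right (by norm_num) d).trans hg) (fun p hp => hfv j p hp)
      refine h2.trans (mul_le_mul_of_nonneg_left ?_ (by positivity))
      have h3 := hTOR g (v j) (hv j).1
      calc (((Finset.univ : Finset (ZMod g)ˣ).filter fun z => z ^ v j = 1).card : ℝ) ≤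
            (((2 * v j) ^ g.primeFactors.card : ℕ) : ℝ) := by exact_mod_cast h3
        _ = (2 * (v j : ℝ)) ^ g.primeFactors.card := by push_cast; rfl
        _ ≤ (2 * (V : ℝ) + 2) ^ g.primeFactors.card := by
          refine pow_le_pow_left₀ (by positivity) ?_ _
          have h4 : (v j : ℝ) ≤ V := by exact_mod_cast (hv j).2.1
          linarith)
  refine le_of_eq_of_le ?_ h1
  refine congrArg (fun n : ℕ => (n : ℝ)) (congrArg Finset.card
    (Finset.filter_congr fun t ht => ?_))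
  rw [Finset.mem_product, Fintype.mem_piFinset, Fintype.mem_piFinset] at ht
  have hco : ∀ j, (t.1 j).Coprime g ∧ (t.2 j).Coprime g := by
    intro j
    have h2 := ht.1 j
    have h3 := ht.2 j
    unfold Dy at h2 h3
    rw [Finset.mem_filter] at h2 h3
    exact ⟨h2.2.2, h3.2.2⟩
  have e1 : ((∏ j, f j (t.1 j) : (ZMod g)ˣ) : ZMod g) = ∏ j, (t.1 j : ZMod g) ^ v j := by
    rw [Units.coe_prod]
    exact Finset.prod_congr rfl fun j _ => hfv j _ (hco j).1
  have e2 : ((∏ j, f j (t.2 j) : (ZMod g)ˣ) : ZMod g) = ∏ j, (t.2 j : ZMod g) ^ v j := by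
    rw [Units.coe_prod]
    exact Finset.prod_congr rfl fun j _ => hfv j _ (hco j).2
  rw [← e1, ← e2, Units.val_inj]

end Pool.Agent.H19.AB
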