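import Pool.Agent.H38.AB.Targets
import Pool.Agent.H19.AB.ENM

/-! # ENA: archimedean energy of a pattern -/

set_option autoImplicit false

open Pool.Agent.H38.RB Pool.Agent.H38.PS Pool.Agent.H82.RD Pool.Agent.H38.AB
open Pool.Agent.H23.AF (En)

namespace Pool.Agent.H19.AB

/-- unique factorization for tuples of primes -/
theorem ena_perm {n : ℕ} {x y : Fin n → ℕ} (hx : ∀ i, (x i).Prime) (hy : ∀ i, (y i).Prime)
    (h : ∏ i, x i = ∏ i, y i) : ∃ σ : Equiv.Perm (Fin n), ∀ i, y (σ i) = x i := by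
  classical
  have hcard : ∀ {z : Fin n → ℕ}, (∀ i, (z i).Prime) → ∀ p, p.Prime →
      Fintype.card {i // z i = p} = (∏ i, z i).factorization p := by
    intro z hz p hp
    rw [Nat.factorization_prod fun i _ => (hz i).ne_zero, Finsupp.finsetSum_apply,
      Fintype.card_subtype, Finset.card_filter]
    refine Finset.sum_congr rfl fun i _ => ?_
    rw [(hz i).factorization, Finsupp.single_apply]
  have hc : ∀ p, Fintype.card {i // x i = p} = Fintype.card {i // y i = p} := by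
    intro p
    by_cases hp : p.Prime
    · rw [hcard hx p hp, hcard hy p hp, h]
    · have h1 : IsEmpty {i // x i = p} := ⟨fun i => hp (i.2 ▸ hx i.1)⟩
      have h2 : IsEmpty {i // y i = p} := ⟨fun i => hp (i.2 ▸ hy i.1)⟩
      rw [Fintype.card_eq_zero, Fintype.card_eq_zero]
  exact ⟨Equiv.ofFiberEquiv fun p => Fintype.equivOfCardEq (hc p),
    fun i => Equiv.ofFiberEquiv_map _ i⟩

theorem ena_pairs (n : ℕ) (B : Finset ℕ) (hB : ∀ p ∈ B, p.Prime) :
    (((Fintype.piFinset (fun _ : Fin n => B)) ×ˢ (Fintype.piFinset (fun _ : Fin n => B))).filter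
      (fun t => ∏ i, t.1 i = ∏ i, t.2 i)).card ≤ B.card ^ n * n.factorial := by
  classical
  have h1 : ((Fintype.piFinset (fun _ : Fin n => B)) ×ˢ
      (Fintype.piFinset (fun _ : Fin n => B))).filter (fun t => ∏ i, t.1 i = ∏ i, t.2 i) ⊆
      ((Fintype.piFinset (fun _ : Fin n => B)) ×ˢ (Finset.univ : Finset (Equiv.Perm (Fin n)))).image
        (fun t => (t.1, fun i => t.1 (t.2 i))) := by
    rintro ⟨x, y⟩ ht
    rw [Finset.mem_filter, Finset.mem_product, Fintype.mem_piFinset, Fintype.mem_piFinset] at ht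
    obtain ⟨⟨hx, hy⟩, he⟩ := ht
    obtain ⟨σ, hσ⟩ := ena_perm (fun i => hB _ (hx i)) (fun i => hB _ (hy i)) he
    rw [Finset.mem_image]
    refine ⟨(x, σ.symm), ?_, ?_⟩
    · rw [Finset.mem_product, Fintype.mem_piFinset]
      exact ⟨hx, Finset.mem_univ _⟩
    · rw [Prod.mk.injEq]
      refine ⟨rfl, ?_⟩
      funext i
      have h2 := hσ (σ.symm i)
      rw [Equiv.apply_symm_apply] at h2
      exact h2.symm
  refine (Finset.card_le_card h1).trans (Finset.card_image_le.trans ?_)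
  rw [Finset.card_product, Fintype.card_piFinset_const, Finset.card_univ, Fintype.card_perm,
    Fintype.card_fin]

/-- equal sums of cells, equal products -/
theorem ena_arch_lt {n v : ℕ} {T W : ℝ} {x y : Fin n → ℕ} (hT : 0 ≤ T) (hx : ∀ i, 1 ≤ x i)
    (hy : ∀ i, 1 ≤ y i) (hW : ((∏ i, y i : ℕ) : ℝ) ≤ W) (hTW : (n : ℝ) * W < T * v)
    (h : ∑ i, ⌊T * v * Real.log (x i)⌋₊ = ∑ i, ⌊T * v * Real.log (y i)⌋₊) :
    ¬ ∏ i, x i < ∏ i, y i := by
  intro hlt
  have hlog : ∀ {z : Fin n → ℕ}, (∀ i, 1 ≤ z i) → Real.log ((∏ i, z i : ℕ) : ℝ) =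
      ∑ i, Real.log (z i) := by
    intro z hz
    push_cast
    rw [Real.log_prod]
    intro i _
    have := hz i
    positivity
  have h0 : ∀ {z : Fin n → ℕ}, (∀ i, 1 ≤ z i) → ∀ i, 0 ≤ T * v * Real.log (z i) := by
    intro z hz i
    have : 0 ≤ Real.log (z i) := Real.log_natCast_nonneg _
    positivity
  have hup : ((∑ i, ⌊T * v * Real.log (x i)⌋₊ : ℕ) : ℝ) ≤
      T * v * Real.log ((∏ i, x i : ℕ) : ℝ) := by
    rw [hlog hx, Finset.mul_sum]
    push_cast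
    exact Finset.sum_le_sum fun i _ => Nat.floor_le (h0 hx i)
  have hlo : T * v * Real.log ((∏ i, y i : ℕ) : ℝ) ≤
      ((∑ i, ⌊T * v * Real.log (y i)⌋₊ : ℕ) : ℝ) + n := by
    rw [hlog hy, Finset.mul_sum]
    push_cast
    have h1 : (n : ℝ) = ∑ _i : Fin n, (1 : ℝ) := by simp
    rw [h1, ← Finset.sum_add_distrib]
    exact Finset.sum_le_sum fun i _ => (Nat.lt_floor_add_one _).le
  rw [← h] at hlo
  have hP1 : 0 < ∏ i, x i := Finset.prod_pos fun i _ => hx i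
  have hP2 : 0 < ∏ i, y i := Finset.prod_pos fun i _ => hy i
  obtain ⟨P1, hP1e⟩ : ∃ P, P = ∏ i, x i := ⟨_, rfl⟩
  obtain ⟨P2, hP2e⟩ : ∃ P, P = ∏ i, y i := ⟨_, rfl⟩
  rw [← hP1e] at hP1 hup hlt
  rw [← hP2e] at hP2 hlo hlt hW
  have hP1r : (0 : ℝ) < P1 := by exact_mod_cast hP1
  have hP2r : (0 : ℝ) < P2 := by exact_mod_cast hP2
  have h2 := Real.one_sub_inv_le_log_of_pos (show (0 : ℝ) < P2 / P1 by positivity)
  rw [Real.log_div hP2r.ne' hP1r.ne', inv_div] at h2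
  have h3 : (P1 : ℝ) + 1 ≤ P2 := by exact_mod_cast hlt
  have h4 : 1 / (P2 : ℝ) ≤ 1 - P1 / P2 := by
    rw [div_le_iff₀ hP2r, sub_mul, div_mul_cancel₀ _ hP2r.ne']
    linarith
  have h5 : T * v * (1 / (P2 : ℝ)) ≤ n := by
    have h6 : T * v * (1 / (P2 : ℝ)) ≤ T * v * (Real.log P2 - Real.log P1) :=
      mul_le_mul_of_nonneg_left (h4.trans h2) (by positivity)
    have h7 : T * v * (Real.log P2 - Real.log P1) = T * v * Real.log P2 - T * v * Real.log P1 := by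
      ring
    linarith
  have h6 : T * v ≤ n * P2 := by
    rw [mul_one_div, div_le_iff₀ hP2r] at h5
    exact h5
  have h7 : (n : ℝ) * P2 ≤ n * W := mul_le_mul_of_nonneg_left hW (Nat.cast_nonneg _)
  linarith

theorem ena_arch {n v : ℕ} {T W : ℝ} {x y : Fin n → ℕ} (hT : 0 ≤ T) (hx : ∀ i, 1 ≤ x i)
    (hy : ∀ i, 1 ≤ y i) (hW : ((∏ i, x i : ℕ) : ℝ) ≤ W) (hW' : ((∏ i, y i : ℕ) : ℝ) ≤ W)
    (hTW : (n : ℝ) * W < T * v)
    (h : ∑ i, ⌊T * v * Real.log (x i)⌋₊ = ∑ i, ⌊T * v * Real.log (y i)⌋₊) :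
    ∏ i, x i = ∏ i, y i := by
  rcases lt_trichotomy (∏ i, x i) (∏ i, y i) with h1 | h1 | h1
  · exact absurd h1 (ena_arch_lt hT hx hy hW' hTW h)
  · exact h1
  · exact absurd h1 (ena_arch_lt hT hy hx hW hTW h.symm)

theorem ena_dy {s p : ℕ} (hp : p ∈ Dy 1 s) : p.Prime ∧ p < 2 ^ (s + 1) := by
  unfold Dy at hp
  rw [Finset.mem_filter, Finset.mem_Ico] at hp
  exact ⟨hp.2.1, hp.1.2⟩

theorem ena_card (s : ℕ) : ((Dy 1 s).card : ℝ) ≤ 2 ^ s := by
  have h1 : (Dy 1 s).card ≤ 2 ^ s := by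
    unfold Dy
    refine (Finset.card_filter_le _ _).trans ?_
    rw [Nat.card_Ico, pow_succ]
    omega
  exact_mod_cast h1

theorem pf_ENA (hEG : T_EG) : T_ENA := by
  classical
  intro k S T v s hv hS hT
  have hT0 : 0 ≤ T := le_trans (by positivity) hT
  have hsS : ∀ j, s j ≤ S := by
    intro j
    rw [hS]
    exact Finset.single_le_sum (f := s) (fun _ _ => Nat.zero_le _) (Finset.mem_univ j)
  -- a modulus larger than all sums
  obtain ⟨Fl, hFl⟩ : ∃ Fl : Fin k → ℕ, Fl = fun j => ⌊T * v j * Real.log ((2 : ℝ) ^ (S + 1))⌋₊ :=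
    ⟨_, rfl⟩
  have hFle : ∀ j, ∀ p ∈ Dy 1 (s j), ⌊T * v j * Real.log p⌋₊ ≤ Fl j := by
    intro j p hp
    obtain ⟨h1, h2⟩ := ena_dy hp
    rw [hFl]
    refine Nat.floor_le_floor ?_
    refine mul_le_mul_of_nonneg_left (Real.log_le_log ?_ ?_) (by positivity)
    · exact_mod_cast h1.pos
    · have h3 : (p : ℝ) ≤ 2 ^ (s j + 1) := by exact_mod_cast h2.le
      exact h3.trans (pow_le_pow_right₀ (by norm_num) (by have := hsS j; omega))
  obtain ⟨M, hM⟩ : ∃ M, M = (S + 1) * ∑ j, Fl j + 1 := ⟨_, rfl⟩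
  have hM0 : NeZero M := ⟨by omega⟩
  have hcast : ∀ {a b : ℕ}, a < M → b < M → ((a : ZMod M) = b ↔ a = b) := by
    intro a b ha hb
    rw [ZMod.natCast_eq_natCast_iff]
    exact ⟨fun h => h.eq_of_lt_of_lt ha hb, fun h => by rw [h]⟩
  obtain ⟨f, hf⟩ : ∃ f : Fin k → ℕ → Multiplicative (ZMod M),
      f = fun j (p : ℕ) => Multiplicative.ofAdd ((⌊T * v j * Real.log (p : ℝ)⌋₊ : ℕ) : ZMod M) :=
    ⟨_, rfl⟩
  have hFlj : ∀ j, Fl j ≤ ∑ j, Fl j := fun j =>
    Finset.single_le_sum (f := Fl) (fun _ _ => Nat.zero_le _) (Finset.mem_univ j)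
  have hceil : ∀ j, S ≤ s j * ((S + s j - 1) / s j) ∧ 1 ≤ (S + s j - 1) / s j ∧
      (S + s j - 1) / s j ≤ S ∧ (s j + 1) * ((S + s j - 1) / s j) ≤ 3 * S + 1 := fun j =>
    enm_ceil (hv j).2 (hsS j)
  have h1 := hEG (Multiplicative (ZMod M)) k S (fun j => Dy 1 (s j)) f s
    (fun j => (S + s j - 1) / s j) 1 le_rfl (fun j => (hv j).2) hS
    (fun j => ⟨(hceil j).1, (hceil j).2.1, (hceil j).2.2.1⟩)
    (fun j => by
      obtain ⟨-, -, hn, hn2⟩ := hceil j
      obtain ⟨n, hne⟩ : ∃ n, n = (S + s j - 1) / s j := ⟨_, rfl⟩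
      rw [← hne] at hn hn2 ⊢
      have hlt : ∀ x : Fin n → ℕ, (∀ i, x i ∈ Dy 1 (s j)) →
          ∑ i, ⌊T * v j * Real.log (x i)⌋₊ < M := by
        intro x hx
        have h2 : ∑ i, ⌊T * v j * Real.log (x i)⌋₊ ≤ ∑ _i : Fin n, Fl j :=
          Finset.sum_le_sum fun i _ => hFle j _ (hx i)
        rw [Finset.sum_const, Finset.card_univ, Fintype.card_fin, smul_eq_mul] at h2
        have h3 : n * Fl j ≤ (S + 1) * ∑ j, Fl j :=
          Nat.mul_le_mul (by omega) (hFlj j)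
        omega
      have hprod : ∀ x : Fin n → ℕ, (∀ i, x i ∈ Dy 1 (s j)) →
          ((∏ i, x i : ℕ) : ℝ) ≤ 2 ^ (3 * S + 1) := by
        intro x hx
        have h2 : ∏ i, x i ≤ ∏ _i : Fin n, 2 ^ (s j + 1) :=
          Finset.prod_le_prod' fun i _ => (ena_dy (hx i)).2.le
        rw [Finset.prod_const, Finset.card_univ, Fintype.card_fin, ← pow_mul] at h2
        have h3 : ∏ i, x i ≤ 2 ^ (3 * S + 1) :=
          h2.trans (Nat.pow_le_pow_right (by norm_num) hn2)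
        exact_mod_cast h3
      have hTW : (n : ℝ) * 2 ^ (3 * S + 1) < T * v j := by
        have h2 : (n : ℝ) ≤ S := by exact_mod_cast hn
        have h3 : (1 : ℝ) ≤ v j := by exact_mod_cast (hv j).1
        have h4 : (0 : ℝ) < 2 ^ (3 * S + 1) := by positivity
        have h5 : T * 1 ≤ T * v j := mul_le_mul_of_nonneg_left h3 hT0
        nlinarith
      have h2 : En (Dy 1 (s j)) (f j) n ≤ (((Dy 1 (s j)).card ^ n * n.factorial : ℕ) : ℝ) := by
        unfold En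
        have h3 := ena_pairs n (Dy 1 (s j)) (fun p hp => (ena_dy hp).1)
        refine Nat.cast_le.2 (le_trans (Finset.card_le_card fun t ht => ?_) h3)
        rw [Finset.mem_filter] at ht ⊢
        refine ⟨ht.1, ?_⟩
        obtain ⟨ht1, ht2⟩ := ht
        rw [Finset.mem_product, Fintype.mem_piFinset, Fintype.mem_piFinset] at ht1
        obtain ⟨ha, hb⟩ := ht1
        rw [hf] at ht2
        simp only at ht2
        rw [← ofAdd_sum, ← ofAdd_sum, Multiplicative.ofAdd.injective.eq_iff, ← Nat.cast_sum,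
          ← Nat.cast_sum, hcast (hlt _ ha) (hlt _ hb)] at ht2
        exact ena_arch hT0 (fun i => (ena_dy (ha i)).1.one_lt.le)
          (fun i => (ena_dy (hb i)).1.one_lt.le) (hprod _ ha) (hprod _ hb) hTW ht2
      refine h2.trans ?_
      rw [mul_one]
      push_cast
      exact mul_le_mul_of_nonneg_right (pow_le_pow_left₀ (Nat.cast_nonneg _) (ena_card _) _)
        (Nat.cast_nonneg _))
  rw [mul_one] at h1
  refine le_of_eq_of_le ?_ h1
  refine congrArg (fun n : ℕ => (n : ℝ)) (congrArg Finset.card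
    (Finset.filter_congr fun t ht => ?_))
  rw [Finset.mem_product, Fintype.mem_piFinset, Fintype.mem_piFinset] at ht
  have hcl : ∀ x : Fin k → ℕ, (∀ j, x j ∈ Dy 1 (s j)) → cl T v x < M := by
    intro x hx
    unfold cl
    have h2 : ∑ j, ⌊T * v j * Real.log (x j)⌋₊ ≤ ∑ j, Fl j :=
      Finset.sum_le_sum fun j _ => hFle j _ (hx j)
    have h3 : 1 * ∑ j, Fl j ≤ (S + 1) * ∑ j, Fl j := Nat.mul_le_mul_right _ (by omega)
    omega
  rw [hf]
  simp only
  rw [← ofAdd_sum, ← ofAdd_sum, Multiplicative.ofAdd.injective.eq_iff, ← Nat.cast_sum,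
    ← Nat.cast_sum]
  exact (hcast (hcl _ ht.1) (hcl _ ht.2)).symm

end Pool.Agent.H19.AB
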