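import Pool.Agent.H46.AB.GEM

/-!
# MP_7ecdd4_nt, board aab, row GEA: weighted archimedean energy
-/

set_option autoImplicit false

open Pool.Agent.H38.RB Pool.Agent.H38.PS Pool.Agent.H82.RD Pool.Agent.H38.AB Pool.Agent.H46.AB

namespace Pool.Agent.H19.AB

/-- the final inequality -/
theorem gea_final (X : ℝ) (Ω V : ℕ) (hX : 2 ≤ X) :
    (2 * (Ω : ℝ) + 3) * (((Ω + 1) * (((V : ℝ) + 1) * ((Nat.log 2 ⌊X⌋₊ : ℕ) + 1)) ^ Ω) ^ 2 *
      (((Nat.log 2 ⌊X⌋₊ : ℕ) + 1 : ℝ) ^ Ω)) ≤ Lo 8 X Ω V := by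
  set l := Nat.log 2 ⌊X⌋₊ with hl
  have hX0 : 0 < X := by linarith
  have hlog : (0.6931 : ℝ) ≤ Real.log X := by
    have h1 : Real.log 2 ≤ Real.log X := Real.log_le_log (by norm_num) hX
    have := Real.log_two_gt_d9
    linarith
  have hM : (l : ℝ) + 1 ≤ 4 * Real.log X + 4 := by
    have h1 : (2 : ℝ) ^ l ≤ X := by
      have h2 : 2 ^ l ≤ ⌊X⌋₊ := Nat.pow_log_le_self 2 (by
        have : 2 ≤ ⌊X⌋₊ := Nat.le_floor (by exact_mod_cast hX)
        omega)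
      calc (2 : ℝ) ^ l = ((2 ^ l : ℕ) : ℝ) := by push_cast; rfl
        _ ≤ (⌊X⌋₊ : ℝ) := by exact_mod_cast h2
        _ ≤ X := Nat.floor_le hX0.le
    have h3 : (l : ℝ) * Real.log 2 ≤ Real.log X := by
      rw [← Real.log_pow]
      exact Real.log_le_log (by positivity) h1
    have h4 := Real.log_two_gt_d9
    have h5 : (0 : ℝ) ≤ l := Nat.cast_nonneg _
    nlinarith
  set M := 4 * Real.log X + 4 with hMdef
  set A := (V : ℝ) + 2 with hA
  have hV : (0 : ℝ) ≤ V := Nat.cast_nonneg _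
  have hl0 : (0 : ℝ) ≤ l := Nat.cast_nonneg _
  have hΩ0 : (0 : ℝ) ≤ Ω := Nat.cast_nonneg _
  have hM4 : 4 ≤ M := by rw [hMdef]; linarith
  have hA2 : 2 ≤ A := by rw [hA]; linarith
  have hΩ : (Ω : ℝ) + 1 ≤ 2 ^ Ω := by
    have : Ω + 1 ≤ 2 ^ Ω := Nat.lt_two_pow_self
    exact_mod_cast this
  have h8 : (8 : ℝ) ≤ A * M := by nlinarith
  have h1 : ((Ω + 1) * (((V : ℝ) + 1) * ((l : ℝ) + 1)) ^ Ω) ≤ 2 ^ Ω * (A * M) ^ Ω := by
    have h2 : (((V : ℝ) + 1) * ((l : ℝ) + 1)) ^ Ω ≤ (A * M) ^ Ω := by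
      refine pow_le_pow_left₀ (by positivity) ?_ _
      exact mul_le_mul (by rw [hA]; linarith) hM (by positivity) (by linarith)
    exact mul_le_mul hΩ h2 (by positivity) (by positivity)
  have h2 : ((l : ℝ) + 1) ^ Ω ≤ (A * M) ^ Ω := by
    refine pow_le_pow_left₀ (by positivity) ?_ _
    nlinarith
  have h4 : 2 * (Ω : ℝ) + 3 ≤ 8 * 2 ^ Ω := by linarith
  have h3 : (8 : ℝ) * 2 ^ Ω * (2 ^ Ω * 2 ^ Ω) = 8 ^ (Ω + 1) := by
    have h5 : (8 : ℝ) ^ Ω = 2 ^ Ω * 2 ^ Ω * 2 ^ Ω := by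
      rw [← mul_pow, ← mul_pow]; norm_num
    rw [pow_succ, h5]
    ring
  calc (2 * (Ω : ℝ) + 3) * (((Ω + 1) * (((V : ℝ) + 1) * ((l : ℝ) + 1)) ^ Ω) ^ 2 *
        (((l : ℝ) + 1) ^ Ω))
      ≤ (8 * 2 ^ Ω) * ((2 ^ Ω * (A * M) ^ Ω) ^ 2 * (A * M) ^ Ω) := by
        refine mul_le_mul h4 ?_ (by positivity) (by positivity)
        exact mul_le_mul (pow_le_pow_left₀ (by positivity) h1 _) h2 (by positivity)
          (by positivity)
    _ = (8 * 2 ^ Ω * (2 ^ Ω * 2 ^ Ω)) * ((A * M) ^ Ω) ^ 3 := by ring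
    _ = 8 ^ (Ω + 1) * (A * M) ^ (Ω * 3) := by rw [h3, ← pow_mul]
    _ ≤ (A * M) ^ (Ω + 1) * (A * M) ^ (Ω * 3) :=
        mul_le_mul_of_nonneg_right (pow_le_pow_left₀ (by norm_num) h8 _) (by positivity)
    _ = (A * M) ^ (Ω + 1 + Ω * 3) := by rw [← pow_add]
    _ ≤ (A * M) ^ (8 * (Ω + 1)) := pow_le_pow_right₀ (by linarith) (by omega)
    _ = Lo 8 X Ω V := rfl

/-- the cells of the logarithms -/
theorem gea_cell {T : ℝ} (hT : 0 ≤ T) {k : ℕ} (v p : Fin k → ℕ) (hp : ∀ j, 1 ≤ p j) :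
    (cl T v p : ℝ) ≤ T * Real.log ((∏ j, p j ^ v j : ℕ) : ℝ) ∧
      T * Real.log ((∏ j, p j ^ v j : ℕ) : ℝ) ≤ cl T v p + k := by
  have hlog : T * Real.log ((∏ j, p j ^ v j : ℕ) : ℝ) = ∑ j, T * v j * Real.log (p j) := by
    push_cast
    rw [Real.log_prod, Finset.mul_sum]
    · refine Finset.sum_congr rfl fun j _ => ?_
      rw [Real.log_pow]
      ring
    · intro j _
      have := hp j
      positivity
  have h0 : ∀ j, 0 ≤ T * v j * Real.log (p j) := by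
    intro j
    have : 0 ≤ Real.log (p j) := Real.log_natCast_nonneg _
    positivity
  rw [hlog]
  unfold cl
  push_cast
  constructor
  · exact Finset.sum_le_sum fun j _ => Nat.floor_le (h0 j)
  · have h1 : (k : ℝ) = ∑ _j : Fin k, (1 : ℝ) := by simp
    rw [h1, ← Finset.sum_add_distrib]
    exact Finset.sum_le_sum fun j _ => (Nat.lt_floor_add_one _).le

/-- sums over pairs with a given difference of the classes -/
theorem gea_shift {M : ℕ} [NeZero M] (U : Finset ℕ) (c : ℕ → ZMod M) (w : ℕ → ℝ) (h : ZMod M) :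
    ∑ t ∈ (U ×ˢ U).filter (fun t => c t.1 = c t.2 + h), w t.1 * w t.2 ≤
      ∑ z : ZMod M, (∑ n ∈ U.filter (fun n => c n = z), w n) ^ 2 := by
  classical
  obtain ⟨W, hW⟩ : ∃ W : ZMod M → ℝ, W = fun z => ∑ n ∈ U.filter (fun n => c n = z), w n :=
    ⟨_, rfl⟩
  have h2 : ∀ z : ZMod M, W (z + h) * W z =
      ∑ t ∈ (U ×ˢ U).filter (fun t => c t.1 = z + h ∧ c t.2 = z), w t.1 * w t.2 := by
    intro z
    rw [hW]
    simp only
    rw [Finset.sum_mul_sum, ← Finset.sum_product']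
    refine Finset.sum_congr ?_ fun _ _ => rfl
    ext t
    simp only [Finset.mem_product, Finset.mem_filter]
    tauto
  have h3 : ∑ z : ZMod M, W (z + h) * W z =
      ∑ t ∈ (U ×ˢ U).filter (fun t => c t.1 = c t.2 + h), w t.1 * w t.2 := by
    rw [← Finset.sum_fiberwise (s := (U ×ˢ U).filter
      (fun t => c t.1 = c t.2 + h)) (g := fun t => c t.2)]
    refine Finset.sum_congr rfl fun z _ => ?_
    rw [h2 z, Finset.filter_filter]
    refine Finset.sum_congr ?_ fun _ _ => rfl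
    ext t
    simp only [Finset.mem_filter]
    constructor
    · rintro ⟨h', h4, h5⟩
      exact ⟨h', by rw [h4, h5], h5⟩
    · rintro ⟨h', h4, h5⟩
      exact ⟨h', by rw [h4, h5], h5⟩
  rw [← h3]
  have h4 : ∑ z : ZMod M, W (z + h) ^ 2 = ∑ z, W z ^ 2 :=
    Fintype.sum_equiv (Equiv.addRight h) _ _ fun z => rfl
  have h5 : ∑ z : ZMod M, W (z + h) * W z ≤ ∑ z : ZMod M, (W (z + h) ^ 2 + W z ^ 2) / 2 := by
    refine Finset.sum_le_sum fun z _ => ?_
    nlinarith [sq_nonneg (W (z + h) - W z)]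
  have h6 : ∑ z : ZMod M, (∑ n ∈ U.filter (fun n => c n = z), w n) ^ 2 = ∑ z, W z ^ 2 := by
    rw [hW]
  rw [h6]
  refine h5.trans (le_of_eq ?_)
  rw [← Finset.sum_div, Finset.sum_add_distrib, h4]
  ring

theorem pf_GEA (hENA : T_ENA) : T_GEA := by
  classical
  intro X T Ω V hX hTX
  set l := Nat.log 2 ⌊X⌋₊ with hl
  have hX0 : 0 < X := by linarith
  have hT0 : 0 ≤ T := le_trans (by positivity) hTX
  set U : Finset ℕ := Nf X Ω V with hU
  have hNf : ∀ n ∈ U, n ≠ 0 ∧ (pd n.primeFactors : ℝ) ≤ X := by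
    intro n hn
    obtain ⟨h0, h1, -, -⟩ := Finset.mem_filter.1 hn
    exact ⟨by have := (Finset.mem_Icc.1 h0).1; omega, h1⟩
  have hpd : ∀ n : ℕ, (0 : ℝ) < pd n.primeFactors := by
    intro n
    have : 0 < pd n.primeFactors := Finset.prod_pos fun p hp =>
      (Nat.prime_of_mem_primeFactors hp).pos
    exact_mod_cast this
  set w : ℕ → ℝ := fun n => 1 / Real.sqrt (pd n.primeFactors) with hw
  have hw0 : ∀ n, 0 ≤ w n := fun n => by rw [hw]; positivity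
  -- patterns
  have hpat : ∀ n : ℕ, ∃ (σ : Pt Ω V l) (p : Fin σ.1 → ℕ), n ∈ U →
      (∀ j, 1 ≤ (σ.2.1 j : ℕ) ∧ 1 ≤ (σ.2.2 j : ℕ) ∧ p j ∈ Dy 1 (σ.2.2 j)) ∧
      n = ∏ j, p j ^ (σ.2.1 j : ℕ) ∧ 2 ^ (∑ j, (σ.2.2 j : ℕ)) ≤ pd n.primeFactors := by
    intro n
    by_cases hn : n ∈ U
    · obtain ⟨k, hk, v, s, p, h1, h2, h3⟩ := exists_pattern X Ω V 1 n hn (Nat.coprime_one_right n)
      refine ⟨⟨⟨k, Nat.lt_succ_iff.2 hk⟩, fun j => ⟨v j, Nat.lt_succ_iff.2 (h1 j).2.1⟩,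
        fun j => ⟨s j, Nat.lt_succ_iff.2 (h1 j).2.2.2.1⟩⟩, p, fun _ => ⟨fun j => ?_, h2, h3⟩⟩
      exact ⟨(h1 j).1, (h1 j).2.2.1, (h1 j).2.2.2.2⟩
    · exact ⟨⟨⟨0, by omega⟩, fun j => j.elim0, fun j => j.elim0⟩, fun j => j.elim0,
        fun h => absurd h hn⟩
  choose σ p hσ using hpat
  -- the box of a pattern, the cells
  obtain ⟨B, hB⟩ : ∃ B : (τ : Pt Ω V l) → Finset (Fin τ.1 → ℕ),
      B = fun τ => Fintype.piFinset fun j => Dy 1 (τ.2.2 j : ℕ) := ⟨_, rfl⟩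
  obtain ⟨Cl, hCl⟩ : ∃ Cl : (τ : Pt Ω V l) → (Fin τ.1 → ℕ) → ℕ,
      Cl = fun τ q => cl T (fun j => (τ.2.1 j : ℕ)) q := ⟨_, rfl⟩
  obtain ⟨M, hM⟩ : ∃ M, M = 1 + ∑ τ : Pt Ω V l, ∑ q ∈ B τ, Cl τ q := ⟨_, rfl⟩
  have hM0 : NeZero M := ⟨by omega⟩
  have hClM : ∀ τ, ∀ q ∈ B τ, Cl τ q < M := by
    intro τ q hq
    have h1 : Cl τ q ≤ ∑ q ∈ B τ, Cl τ q :=
      Finset.single_le_sum (f := fun q => Cl τ q) (fun _ _ => Nat.zero_le _) hq
    have h2 : ∑ q ∈ B τ, Cl τ q ≤ ∑ τ : Pt Ω V l, ∑ q ∈ B τ, Cl τ q :=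
      Finset.single_le_sum (f := fun τ : Pt Ω V l => ∑ q ∈ B τ, Cl τ q)
        (fun _ _ => Nat.zero_le _) (Finset.mem_univ τ)
    omega
  have hcast : ∀ {a b : ℕ}, a < M → b < M → ((a : ZMod M) = b ↔ a = b) := by
    intro a b ha hb
    rw [ZMod.natCast_eq_natCast_iff]
    exact ⟨fun h => h.eq_of_lt_of_lt ha hb, fun h => by rw [h]⟩
  obtain ⟨c, hc⟩ : ∃ c : ℕ → ℕ, c = fun n => Cl (σ n) (p n) := ⟨_, rfl⟩
  have hcn : ∀ n ∈ U, (c n : ℝ) ≤ T * Real.log n ∧ T * Real.log n ≤ c n + Ω := by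
    intro n hn
    obtain ⟨h1, h2, h3⟩ := hσ n hn
    have h4 := gea_cell hT0 (fun j => ((σ n).2.1 j : ℕ)) (p n) (fun j => by
      have h5 := (h1 j).2.2
      unfold Dy at h5
      exact (Finset.mem_filter.1 h5).2.1.one_lt.le)
    rw [← h2] at h4
    rw [hc, hCl]
    refine ⟨h4.1, h4.2.trans ?_⟩
    have h5 : ((σ n).1 : ℕ) ≤ Ω := Nat.lt_succ_iff.1 (σ n).1.2
    have h6 : (((σ n).1 : ℕ) : ℝ) ≤ Ω := by exact_mod_cast h5
    simp only
    linarith
  -- the weights of one pattern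
  have hE : ∀ τ : Pt Ω V l, ∑ z : ZMod M, (∑ n ∈ U.filter
      (fun n : ℕ => (c n : ZMod M) = z ∧ σ n = τ), w n) ^ 2 ≤ ((l : ℝ) + 1) ^ Ω := by
    intro τ
    by_cases hne : ∃ n₀ ∈ U, σ n₀ = τ
    swap
    · have h0 : ∀ z : ZMod M, (∑ n ∈ U.filter
          (fun n : ℕ => (c n : ZMod M) = z ∧ σ n = τ), w n) = 0 := by
        intro z
        rw [Finset.filter_eq_empty_iff.2, Finset.sum_empty]
        rintro n hn ⟨-, h⟩
        exact hne ⟨n, hn, h⟩
      simp only [h0]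
      rw [Finset.sum_eq_zero (fun _ _ => by norm_num)]
      positivity
    obtain ⟨n₀, hn₀, hτ⟩ := hne
    obtain ⟨hσ1, hσ2, hσ3⟩ := hσ n₀ hn₀
    rw [hτ] at hσ3
    set S := ∑ j, (τ.2.2 j : ℕ) with hS
    have hSX : (2 : ℝ) ^ S ≤ X := by
      have h1 := (hNf n₀ hn₀).2
      refine le_trans ?_ h1
      exact_mod_cast hσ3
    have hvs : ∀ j, 1 ≤ (τ.2.1 j : ℕ) ∧ 1 ≤ (τ.2.2 j : ℕ) := by
      subst hτ
      exact fun j => ⟨(hσ1 j).1, (hσ1 j).2.1⟩
    have hS1 : (S : ℝ) + 1 ≤ 2 ^ S := by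
      have : S + 1 ≤ 2 ^ S := Nat.lt_two_pow_self
      exact_mod_cast this
    have hST : 2 ^ (3 * S + 1) * ((S : ℝ) + 1) ≤ T := by
      refine le_trans ?_ hTX
      have h2 : (2 : ℝ) ^ (3 * S + 1) = 2 * (2 ^ S) ^ 3 := by
        rw [pow_succ, ← pow_mul, mul_comm S 3]; ring
      rw [h2]
      calc 2 * ((2 : ℝ) ^ S) ^ 3 * ((S : ℝ) + 1) ≤ X * X ^ 3 * X := by
            refine mul_le_mul (mul_le_mul hX (pow_le_pow_left₀ (by positivity) hSX 3)
              (by positivity) (by positivity)) (hS1.trans hSX) (by positivity) (by positivity)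
        _ = X ^ 5 := by ring
    have hen := hENA τ.1 S T (fun j => τ.2.1 j) (fun j => τ.2.2 j) hvs hS hST
    have hen' : (((B τ ×ˢ B τ).filter (fun t => (Cl τ t.1 : ZMod M) = (Cl τ t.2 : ZMod M))).card
        : ℝ) ≤ 2 ^ S * ((S : ℝ) + 1) ^ (τ.1 : ℕ) := by
      refine le_trans (le_of_eq ?_) hen
      refine congrArg (fun n : ℕ => (n : ℝ)) (congrArg Finset.card ?_)
      rw [hB]
      refine Finset.filter_congr fun t ht => ?_
      rw [Finset.mem_product] at ht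
      have h1 := hClM τ t.1 (by rw [hB]; exact ht.1)
      have h2 := hClM τ t.2 (by rw [hB]; exact ht.2)
      rw [hcast h1 h2, hCl]
    rw [← sum_sq (B τ) (fun q : Fin τ.1 → ℕ => (Cl τ q : ZMod M))] at hen'
    have h2S : (0 : ℝ) < 2 ^ S := by positivity
    have hz : ∀ z : ZMod M, (∑ n ∈ U.filter (fun n : ℕ => (c n : ZMod M) = z ∧ σ n = τ),
        w n) ^ 2 ≤ 1 / 2 ^ S * ((((B τ).filter fun q => (Cl τ q : ZMod M) = z).card : ℝ)) ^ 2 := by
      intro z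
      have h1 : ∀ n ∈ U.filter (fun n : ℕ => (c n : ZMod M) = z ∧ σ n = τ),
          w n ≤ 1 / Real.sqrt (2 ^ S) := by
        intro n hn
        obtain ⟨hn1, -, hn2⟩ := Finset.mem_filter.1 hn
        have h3 := (hσ n hn1).2.2
        rw [hn2] at h3
        refine one_div_le_one_div_of_le (Real.sqrt_pos.2 h2S) (Real.sqrt_le_sqrt ?_)
        exact_mod_cast h3
      have h2 : ((U.filter (fun n : ℕ => (c n : ZMod M) = z ∧ σ n = τ)).card : ℝ) ≤
          (((B τ).filter fun q => (Cl τ q : ZMod M) = z).card : ℝ) := by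
        have h3 : ∀ n : ℕ, ∃ q : Fin τ.1 → ℕ,
            n ∈ U.filter (fun n : ℕ => (c n : ZMod M) = z ∧ σ n = τ) →
            q ∈ B τ ∧ n = ∏ j, q j ^ (τ.2.1 j : ℕ) ∧ c n = Cl τ q := by
          intro n
          by_cases hn : n ∈ U.filter (fun n : ℕ => (c n : ZMod M) = z ∧ σ n = τ)
          · obtain ⟨hn1, -, hn2⟩ := Finset.mem_filter.1 hn
            obtain ⟨h4, h5, -⟩ := hσ n hn1
            subst hn2
            refine ⟨p n, fun _ => ⟨?_, h5, ?_⟩⟩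
            · rw [hB]
              exact Fintype.mem_piFinset.2 fun j => (h4 j).2.2
            · rw [hc]
          · exact ⟨fun _ => 0, fun h => absurd h hn⟩
        choose q hq using h3
        refine Nat.cast_le.2 (Finset.card_le_card_of_injOn q (fun n hn => by
          have hn' := Finset.mem_coe.1 hn
          obtain ⟨h4, h5, h6⟩ := hq n hn'
          refine Finset.mem_coe.2 (Finset.mem_filter.2 ⟨h4, ?_⟩)
          rw [← h6]
          exact (Finset.mem_filter.1 hn').2.1) (fun n hn m hm h => by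
          rw [(hq n (Finset.mem_coe.1 hn)).2.1, (hq m (Finset.mem_coe.1 hm)).2.1, h]))
      have h3 : (∑ n ∈ U.filter (fun n : ℕ => (c n : ZMod M) = z ∧ σ n = τ), w n) ≤
          (((B τ).filter fun q => (Cl τ q : ZMod M) = z).card : ℝ) * (1 / Real.sqrt (2 ^ S)) := by
        refine (Finset.sum_le_sum h1).trans ?_
        rw [Finset.sum_const, nsmul_eq_mul]
        exact mul_le_mul_of_nonneg_right h2 (by positivity)
      have h4 := pow_le_pow_left₀ (Finset.sum_nonneg fun n _ => hw0 n) h3 2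
      refine h4.trans (le_of_eq ?_)
      rw [mul_pow, div_pow, one_pow, Real.sq_sqrt h2S.le]
      ring
    refine (Finset.sum_le_sum fun z _ => hz z).trans ?_
    rw [← Finset.mul_sum]
    have h5 : (1 : ℝ) / 2 ^ S * (2 ^ S * ((S : ℝ) + 1) ^ (τ.1 : ℕ)) ≤ ((l : ℝ) + 1) ^ Ω := by
      have h6 : (1 : ℝ) / 2 ^ S * (2 ^ S * ((S : ℝ) + 1) ^ (τ.1 : ℕ)) =
          ((S : ℝ) + 1) ^ (τ.1 : ℕ) := by
        field_simp
      rw [h6]
      have hSl : S ≤ l := by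
        rw [hl]
        refine Nat.le_log_of_pow_le one_lt_two ?_
        refine Nat.le_floor ?_
        exact_mod_cast hSX
      have h8 : (S : ℝ) ≤ l := by exact_mod_cast hSl
      exact (pow_le_pow_left₀ (by positivity) (by linarith) _).trans
        (pow_le_pow_right₀ (by have : (0 : ℝ) ≤ l := Nat.cast_nonneg _; linarith)
          (Nat.lt_succ_iff.1 τ.1.2))
    exact (mul_le_mul_of_nonneg_left hen' (by positivity)).trans h5
  -- the sum of the squares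
  have hWsq : ∑ z : ZMod M, (∑ n ∈ U.filter (fun n => (c n : ZMod M) = z), w n) ^ 2 ≤
      (Fintype.card (Pt Ω V l) : ℝ) ^ 2 * ((l : ℝ) + 1) ^ Ω := by
    have h1 : ∀ z : ZMod M, ∑ n ∈ U.filter (fun n => (c n : ZMod M) = z), w n =
        ∑ τ : Pt Ω V l, ∑ n ∈ U.filter (fun n : ℕ => (c n : ZMod M) = z ∧ σ n = τ), w n := by
      intro z
      rw [← Finset.sum_fiberwise (s := U.filter (fun n : ℕ => (c n : ZMod M) = z)) (g := σ)]
      refine Finset.sum_congr rfl fun τ _ => ?_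
      rw [Finset.filter_filter]
    have h2 : ∀ z : ZMod M, (∑ n ∈ U.filter (fun n => (c n : ZMod M) = z), w n) ^ 2 ≤
        (Fintype.card (Pt Ω V l) : ℝ) * ∑ τ : Pt Ω V l, (∑ n ∈ U.filter
        (fun n : ℕ => (c n : ZMod M) = z ∧ σ n = τ), w n) ^ 2 := by
      intro z
      rw [h1]
      exact sq_sum_le_card_mul_sum_sq
    calc _ ≤ ∑ z : ZMod M, (Fintype.card (Pt Ω V l) : ℝ) * ∑ τ : Pt Ω V l, (∑ n ∈ U.filter
        (fun n : ℕ => (c n : ZMod M) = z ∧ σ n = τ), w n) ^ 2 := Finset.sum_le_sum fun z _ => h2 z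
      _ = (Fintype.card (Pt Ω V l) : ℝ) * ∑ τ : Pt Ω V l, ∑ z : ZMod M, (∑ n ∈ U.filter
        (fun n : ℕ => (c n : ZMod M) = z ∧ σ n = τ), w n) ^ 2 := by
          rw [← Finset.mul_sum, Finset.sum_comm]
      _ ≤ (Fintype.card (Pt Ω V l) : ℝ) * ∑ _τ : Pt Ω V l, ((l : ℝ) + 1) ^ Ω :=
          mul_le_mul_of_nonneg_left (Finset.sum_le_sum fun τ _ => hE τ) (Nat.cast_nonneg _)
      _ = _ := by
          rw [Finset.sum_const, Finset.card_univ, nsmul_eq_mul]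
          ring
  -- the sum over pairs
  obtain ⟨H, hH⟩ : ∃ H : Finset ℤ, H = Finset.Icc (-((Ω : ℤ) + 1)) ((Ω : ℤ) + 1) := ⟨_, rfl⟩
  have hcardH : (H.card : ℝ) = 2 * (Ω : ℝ) + 3 := by
    rw [hH, Int.card_Icc]
    have h1 : ((Ω : ℤ) + 1 + 1 - -((Ω : ℤ) + 1)).toNat = 2 * Ω + 3 := by omega
    rw [h1]
    push_cast
    ring
  have hsum : ∑ t ∈ (U ×ˢ U).filter (fun t => T * |Real.log t.1 - Real.log t.2| ≤ 1),
      1 / Real.sqrt ((pd t.1.primeFactors : ℝ) * pd t.2.primeFactors) ≤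
      ∑ h ∈ H, ∑ t ∈ (U ×ˢ U).filter
        (fun t => (c t.1 : ZMod M) = (c t.2 : ZMod M) + (h : ZMod M)), w t.1 * w t.2 := by
    have h1 : ∀ h ∈ H, ∑ t ∈ (U ×ˢ U).filter
        (fun t => (c t.1 : ZMod M) = (c t.2 : ZMod M) + (h : ZMod M)), w t.1 * w t.2 =
        ∑ t ∈ U ×ˢ U, if (c t.1 : ZMod M) = (c t.2 : ZMod M) + (h : ZMod M) then
          w t.1 * w t.2 else 0 := by
      intro h _
      rw [Finset.sum_filter]
    rw [Finset.sum_congr rfl h1, Finset.sum_comm]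
    have h2 : ∀ t ∈ (U ×ˢ U).filter (fun t => T * |Real.log t.1 - Real.log t.2| ≤ 1),
        1 / Real.sqrt ((pd t.1.primeFactors : ℝ) * pd t.2.primeFactors) ≤
        ∑ h ∈ H, if (c t.1 : ZMod M) = (c t.2 : ZMod M) + (h : ZMod M) then
          w t.1 * w t.2 else 0 := by
      intro t ht
      obtain ⟨ht1, ht2⟩ := Finset.mem_filter.1 ht
      obtain ⟨ha, hb⟩ := Finset.mem_product.1 ht1
      have h3 : 1 / Real.sqrt ((pd t.1.primeFactors : ℝ) * pd t.2.primeFactors) =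
          w t.1 * w t.2 := by
        rw [Real.sqrt_mul (hpd _).le, hw]
        simp only
        rw [one_div_mul_one_div]
      obtain ⟨a1, a2⟩ := hcn t.1 ha
      obtain ⟨b1, b2⟩ := hcn t.2 hb
      have h4 : |T * Real.log t.1 - T * Real.log t.2| ≤ 1 := by
        rw [← mul_sub, abs_mul, abs_of_nonneg hT0]
        exact ht2
      rw [abs_le] at h4
      have h5 : ((c t.1 : ℤ) - c t.2) ∈ H := by
        rw [hH, Finset.mem_Icc]
        have e1 : (c t.1 : ℝ) ≤ c t.2 + Ω + 1 := by linarith [h4.2]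
        have e2 : (c t.2 : ℝ) ≤ c t.1 + Ω + 1 := by linarith [h4.1]
        have e1' : c t.1 ≤ c t.2 + Ω + 1 := by exact_mod_cast e1
        have e2' : c t.2 ≤ c t.1 + Ω + 1 := by exact_mod_cast e2
        omega
      have h6 : (if (c t.1 : ZMod M) = (c t.2 : ZMod M) + (((c t.1 : ℤ) - c t.2 : ℤ) : ZMod M)
          then w t.1 * w t.2 else 0) = w t.1 * w t.2 := by
        rw [if_pos]
        push_cast
        ring
      refine (h3.trans h6.symm).le.trans ?_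
      exact Finset.single_le_sum (f := fun h : ℤ =>
        if (c t.1 : ZMod M) = (c t.2 : ZMod M) + (h : ZMod M) then w t.1 * w t.2 else 0)
        (fun h _ => by
          split_ifs
          · exact mul_nonneg (hw0 _) (hw0 _)
          · exact le_rfl) h5
    refine (Finset.sum_le_sum h2).trans ?_
    refine Finset.sum_le_sum_of_subset_of_nonneg (Finset.filter_subset _ _) fun t _ _ => ?_
    refine Finset.sum_nonneg fun h _ => ?_
    split_ifs
    · exact mul_nonneg (hw0 _) (hw0 _)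
    · exact le_rfl
  refine hsum.trans ?_
  have hfin : ∑ h ∈ H, ∑ t ∈ (U ×ˢ U).filter
      (fun t => (c t.1 : ZMod M) = (c t.2 : ZMod M) + (h : ZMod M)), w t.1 * w t.2 ≤
      ∑ _h ∈ H, (Fintype.card (Pt Ω V l) : ℝ) ^ 2 * ((l : ℝ) + 1) ^ Ω :=
    Finset.sum_le_sum fun h _ => (gea_shift U (fun n => (c n : ZMod M)) w (h : ZMod M)).trans hWsq
  refine hfin.trans ?_
  rw [Finset.sum_const, nsmul_eq_mul, hcardH]
  refine le_trans ?_ (gea_final X Ω V hX)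
  refine mul_le_mul_of_nonneg_left ?_ (by positivity)
  refine mul_le_mul_of_nonneg_right ?_ (by positivity)
  exact pow_le_pow_left₀ (Nat.cast_nonneg _) (card_Pt Ω V l) 2

end Pool.Agent.H19.AB
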